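import Pool.Agent.L7h67.K4.Stm

set_option autoImplicit false

/-!
# A small prime with given values of quadratic characters: conclusion
-/

namespace Pool.Agent.L7h67.K4

open Finset

/-- `Kill4` from its parts -/
theorem kill4 (h1 : Up4) (h2 : Wt4) (h3 : Nn4) : Kill4 := by
  refine ⟨10 ^ 32, fun m χ hm hq hne hprod => ?_⟩
  obtain ⟨Z, hZ⟩ : ∃ Z : ℕ, Z = 10 ^ 8 * m ^ 5 := ⟨_, rfl⟩
  obtain ⟨N, hN⟩ : ∃ N : ℕ, N = Z ^ 4 := ⟨_, rfl⟩
  have hm0 : 0 < m := by omega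
  have hNle : N ≤ 10 ^ 32 * m ^ (10 ^ 32) := by
    have e1 : N = 10 ^ 32 * m ^ 20 := by rw [hN, hZ]; ring
    rw [e1]
    exact Nat.mul_le_mul_left _ (Nat.pow_le_pow_right hm0 (by norm_num))
  by_contra hcon
  push Not at hcon
  have hno : ∀ p : ℕ, p.Prime → p ≤ N → ¬ ∀ i, χ i (p : ZMod m) = -1 := by
    intro p hp hpN h
    obtain ⟨i, hi⟩ := hcon p hp (hpN.trans hNle)
    exact hi (h i)
  obtain ⟨hnn, hsq⟩ := h3 m N χ hm hq hprod hno
  obtain ⟨Y, hY⟩ : ∃ Y : ℝ, Y = Real.log (N + 1) := ⟨_, rfl⟩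
  have hZ1 : 1 ≤ Z := by
    rw [hZ]
    exact Nat.one_le_iff_ne_zero.2 (by positivity)
  have hN1 : 1 ≤ N := by rw [hN]; exact Nat.one_le_pow _ _ hZ1
  have hY0 : 0 ≤ Y := by
    rw [hY]
    apply Real.log_nonneg
    have : (0 : ℝ) ≤ N := Nat.cast_nonneg _
    linarith
  have hup := h1 m N χ (fun s => (max (Y - s) 0) ^ 5) hm hq hne (h2 Y) (by
    intro s hs
    rw [← hY] at hs
    rw [max_eq_right (by linarith)]
    norm_num)
  simp only [sub_zero] at hup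
  rw [max_eq_left hY0] at hup
  -- the bound for `Y ^ 5`
  have hY5 : Y ^ 5 ≤ 6400000 * Z := by
    obtain ⟨u, hu⟩ : ∃ u : ℝ, u = Y / 20 := ⟨_, rfl⟩
    have hu0 : 0 ≤ u := by rw [hu]; positivity
    have e1 : u ≤ Real.exp u := by
      have := Real.add_one_le_exp u
      linarith
    have e2 : Real.exp u ^ 20 = N + 1 := by
      rw [← Real.exp_nat_mul]
      have : ((20 : ℕ) : ℝ) * u = Real.log (N + 1) := by rw [hu, hY]; push_cast; ring
      rw [this, Real.exp_log (by positivity)]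
    have e3 : (Real.exp u ^ 5) ^ 4 ≤ (2 * (Z : ℝ)) ^ 4 := by
      rw [← pow_mul]
      norm_num
      rw [e2, hN]
      have : (1 : ℝ) ≤ (Z : ℝ) ^ 4 := by
        apply one_le_pow₀
        exact_mod_cast hZ1
      push_cast
      nlinarith
    have e4 : Real.exp u ^ 5 ≤ 2 * (Z : ℝ) := by
      apply le_of_pow_le_pow_left₀ (by norm_num) (by positivity) e3
    have e5 : Y = 20 * u := by rw [hu]; ring
    calc Y ^ 5 = 3200000 * u ^ 5 := by rw [e5]; ring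
      _ ≤ 3200000 * Real.exp u ^ 5 := by gcongr
      _ ≤ 3200000 * (2 * (Z : ℝ)) := by gcongr
      _ = 6400000 * Z := by ring
  -- the lower bound
  obtain ⟨J, hJ⟩ : ∃ J : ℕ, J = 5 * 10 ^ 15 * m ^ 9 - 1 := ⟨_, rfl⟩
  have hm9 : 1 ≤ m ^ 9 := Nat.one_le_pow _ _ hm0
  have hq1 : ∀ j < J, 2 * (1 + j * m) ≤ Z ^ 2 := by
    intro j hj
    have e1 : j + 2 ≤ 5 * 10 ^ 15 * m ^ 9 := by omega
    have e2 : (j + 2) * m ≤ 5 * 10 ^ 15 * m ^ 9 * m := Nat.mul_le_mul_right _ e1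
    have e3 : Z ^ 2 = 2 * (5 * 10 ^ 15 * m ^ 9 * m) := by rw [hZ]; ring
    have e4 : (j + 2) * m = j * m + 2 * m := by ring
    omega
  have hq2 : ∀ j < J, 4 * (1 + j * m) ^ 2 ≤ N := by
    intro j hj
    calc 4 * (1 + j * m) ^ 2 = (2 * (1 + j * m)) ^ 2 := by ring
      _ ≤ (Z ^ 2) ^ 2 := Nat.pow_le_pow_left (hq1 j hj) 2
      _ = N := by rw [hN]; ring
  have hinj : Set.InjOn (fun j => (1 + j * m) ^ 2) (range J : Set ℕ) := by
    intro i _ j _ hij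
    have h4 : 1 + i * m = 1 + j * m := Nat.pow_left_injective (n := 2) (by norm_num) hij
    have h5 : i * m = j * m := by omega
    exact Nat.eq_of_mul_eq_mul_right hm0 h5
  have hsub : (range J).image (fun j => (1 + j * m) ^ 2) ⊆ Icc 1 N := by
    intro n hn
    obtain ⟨j, hj, rfl⟩ := mem_image.1 hn
    have h4 := hq2 j (mem_range.1 hj)
    rw [mem_Icc]
    exact ⟨Nat.one_le_pow _ _ (by omega), by omega⟩
  have hnn' : ∀ n ∈ Icc 1 N, 0 ≤ (F4 χ n : ℝ) * (max (Y - Real.log n) 0) ^ 5 := by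
    intro n hn
    have h4 := hnn n (mem_Icc.1 hn).2
    have h5 : (0 : ℝ) ≤ F4 χ n := by exact_mod_cast h4
    positivity
  have hlow : (J : ℝ) ≤ ∑ n ∈ Icc 1 N, (F4 χ n : ℝ) * (max (Y - Real.log n) 0) ^ 5 := by
    refine le_trans ?_ (sum_le_sum_of_subset_of_nonneg hsub (fun n hn _ => hnn' n hn))
    rw [sum_image (fun i hi j hj hij => hinj hi hj hij)]
    have hterm : ∀ j ∈ range J, (1 : ℝ) ≤
        (F4 χ ((1 + j * m) ^ 2) : ℝ) * (max (Y - Real.log (((1 + j * m) ^ 2 : ℕ) : ℝ)) 0) ^ 5 := by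
      intro j hj
      have h4 := hq2 j (mem_range.1 hj)
      have h5 : 1 ≤ F4 χ ((1 + j * m) ^ 2) := hsq (1 + j * m) (by omega) (by
        rw [Nat.coprime_add_mul_right_left]
        simp) (by omega)
      have h6 : (1 : ℝ) ≤ F4 χ ((1 + j * m) ^ 2) := by exact_mod_cast h5
      have h7 : (0 : ℝ) < (((1 + j * m) ^ 2 : ℕ) : ℝ) := by positivity
      have h8 : Real.log 4 + Real.log (((1 + j * m) ^ 2 : ℕ) : ℝ) ≤ Y := by
        rw [← Real.log_mul (by norm_num) h7.ne', hY]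
        apply Real.log_le_log (by positivity)
        have : ((4 * (1 + j * m) ^ 2 : ℕ) : ℝ) ≤ N := by exact_mod_cast h4
        push_cast at this ⊢
        linarith
      have h9 : 1 ≤ Real.log 4 := by
        have e1 : Real.log 4 = 2 * Real.log 2 := by
          rw [show (4 : ℝ) = 2 ^ 2 by norm_num, Real.log_pow]
          norm_num
        have := Real.log_two_gt_d9
        rw [e1]
        linarith
      have h10 : (1 : ℝ) ≤ (max (Y - Real.log (((1 + j * m) ^ 2 : ℕ) : ℝ)) 0) ^ 5 := by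
        apply one_le_pow₀
        apply le_max_of_le_left
        linarith
      nlinarith
    calc (J : ℝ) = ∑ j ∈ range J, (1 : ℝ) := by simp
      _ ≤ _ := sum_le_sum hterm
  have hfin : (J : ℝ) ≤ (m : ℝ) ^ 4 * Y ^ 5 := hlow.trans ((le_abs_self _).trans hup)
  have hJr : (J : ℝ) = 5 * 10 ^ 15 * (m : ℝ) ^ 9 - 1 := by
    rw [hJ, Nat.cast_sub (by omega)]
    push_cast
    ring
  have hm9r : (1 : ℝ) ≤ (m : ℝ) ^ 9 := by exact_mod_cast hm9
  have hZr : (Z : ℝ) = 10 ^ 8 * (m : ℝ) ^ 5 := by rw [hZ]; push_cast; ring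
  have h4 : (m : ℝ) ^ 4 * Y ^ 5 ≤ (m : ℝ) ^ 4 * (6400000 * Z) :=
    mul_le_mul_of_nonneg_left hY5 (by positivity)
  rw [hZr] at h4
  have h5 : (m : ℝ) ^ 4 * (6400000 * (10 ^ 8 * (m : ℝ) ^ 5)) = 640000000000000 * (m : ℝ) ^ 9 := by
    ring
  rw [h5] at h4
  rw [hJr] at hfin
  nlinarith

end Pool.Agent.L7h67.K4
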