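import Mathlib

set_option autoImplicit false

/-!
# A small prime with given values of quadratic characters: statements

`Kill4`: if `χ 0, .., χ 3` are nontrivial quadratic characters modulo `m` with product `1`, then there is
a prime `p ≤ C m ^ C` with `χ i p = -1` for all `i`.
Elementary proof in three parts (`Up4`, `Nn4`, and the conclusion).
-/

namespace Pool.Agent.L7h67.K4

open Finset

/-- `k` times monotone weights -/
def Mo : ℕ → (ℝ → ℝ) → Prop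
  | 0, w => ∀ s, 0 ≤ w s
  | k + 1, w => (∀ s, 0 ≤ w s) ∧ ∃ v : ℝ → ℝ, Mo k v ∧ ∀ s, HasDerivAt w (-(v s)) s

/-- the values of a character as an arithmetic function (it vanishes at `0` if `1 < m`) -/
noncomputable def af {m : ℕ} (χ : DirichletCharacter ℤ m) : ArithmeticFunction ℤ :=
  ⟨fun n => if n = 0 then 0 else χ (n : ZMod m), by simp⟩

/-- the convolution of four characters -/
noncomputable def F4 {m : ℕ} (χ : Fin 4 → DirichletCharacter ℤ m) : ArithmeticFunction ℤ :=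
  af (χ 0) * af (χ 1) * af (χ 2) * af (χ 3)

/-- upper bound: `w` four times monotone, `w = 0` on `[log (N + 1), ∞)` -/
def Up4 : Prop := ∀ (m N : ℕ) (χ : Fin 4 → DirichletCharacter ℤ m) (w : ℝ → ℝ), 1 < m →
  (∀ i, (χ i).IsQuadratic) → (∀ i, χ i ≠ 1) → Mo 4 w →
  (∀ s : ℝ, Real.log (N + 1) ≤ s → w s = 0) →
  |∑ n ∈ Icc 1 N, (F4 χ n : ℝ) * w (Real.log n)| ≤ (m : ℝ) ^ 4 * w 0

/-- the weight `(log (y / n)) ^ 5` -/
def Wt4 : Prop := ∀ Y : ℝ, Mo 4 (fun s => (max (Y - s) 0) ^ 5)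

/-- positivity: if no prime `p ≤ N` has `χ i p = -1` for all `i`, then `F4 χ` is nonnegative up to
`N` and at least `1` at the squares prime to `m` -/
def Nn4 : Prop := ∀ (m N : ℕ) (χ : Fin 4 → DirichletCharacter ℤ m), 1 < m →
  (∀ i, (χ i).IsQuadratic) → χ 0 * χ 1 * χ 2 * χ 3 = 1 →
  (∀ p : ℕ, p.Prime → p ≤ N → ¬ ∀ i, χ i (p : ZMod m) = -1) →
  (∀ n : ℕ, n ≤ N → 0 ≤ F4 χ n) ∧
  (∀ n : ℕ, 0 < n → n.Coprime m → n ^ 2 ≤ N → 1 ≤ F4 χ (n ^ 2))

/-- four nontrivial quadratic characters with product `1` -/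
def Kill4 : Prop := ∃ C : ℕ, ∀ (m : ℕ) (χ : Fin 4 → DirichletCharacter ℤ m), 1 < m →
  (∀ i, (χ i).IsQuadratic) → (∀ i, χ i ≠ 1) → χ 0 * χ 1 * χ 2 * χ 3 = 1 →
  ∃ p : ℕ, p.Prime ∧ p ≤ C * m ^ C ∧ ∀ i, χ i (p : ZMod m) = -1

end Pool.Agent.L7h67.K4
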